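import Pool.Agent.N357.AP.Basic

/-!
# First occurrences of powers of two as least deficient multipliers

`sig n` is the sum of the positive divisors of `n`; `a n` is the least `k ≥ 1` such that `k` is
deficient and `k n` is not (`Pool.Agent.N357.AP`); `AlmostPerfect k` means `k ≥ 1` and
`σ(k) = 2 k - 1`; `p m` is the least prime above `2^m`.

Outline.  An odd `n ≥ 3` has the good multiplier `2^j` as soon as `n ≤ (2^(j+1) - 1)(σ(n) - n)`.  For
`n < 2^m` this holds with `j = m - 1` as `σ(n) - n ≥ 1`, and for composite odd `n < p_m ≤ 2^(m+1)` as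
`σ(n) - n ≥ 4`.  The value `a(p_m)` is almost perfect and at most `2^m`, and an almost perfect number
`k < 2^m` works for `p_m` if and only if `p_m + 1 ≤ 2 k`.
-/

set_option autoImplicit false

namespace Pool.Agent.Results.MP_bcda77_nt.FirstOccurrence

open Pool.Agent.N357.AP

/-- the least prime greater than `2^m` -/
noncomputable def p (m : ℕ) : ℕ := sInf {q : ℕ | q.Prime ∧ 2 ^ m < q}

theorem p_mem (m : ℕ) : (p m).Prime ∧ 2 ^ m < p m := by
  have hne : {q : ℕ | q.Prime ∧ 2 ^ m < q}.Nonempty := by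
    obtain ⟨q, h1, h2⟩ := Nat.exists_infinite_primes (2 ^ m + 1)
    exact ⟨q, h2, by omega⟩
  exact Nat.sInf_mem hne

theorem p_le {m q : ℕ} (hq : q.Prime) (h : 2 ^ m < q) : p m ≤ q := Nat.sInf_le ⟨hq, h⟩

theorem p_le_two (m : ℕ) : p m ≤ 2 * 2 ^ m := by
  obtain ⟨q, h1, h2, h3⟩ := Nat.exists_prime_lt_and_le_two_mul (2 ^ m) (by positivity)
  exact (p_le h1 h2).trans h3

theorem p_odd {m : ℕ} (hm : 1 ≤ m) : p m % 2 = 1 := by
  obtain ⟨h1, h2⟩ := p_mem m
  rcases h1.eq_two_or_odd with h | h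
  · have : 2 ^ 1 ≤ 2 ^ m := Nat.pow_le_pow_right (by norm_num) hm
    omega
  · exact h

theorem no_smaller {m : ℕ} (hm : 1 ≤ m) {n : ℕ} (hn : 2 ≤ n) (hnp : n < p m) : a n ≠ 2 ^ m := by
  intro h
  obtain ⟨j, rfl⟩ : ∃ j, m = j + 1 := ⟨m - 1, by omega⟩
  have hpow : 2 ^ (j + 1) = 2 * 2 ^ j := by rw [pow_succ]; ring
  have hjpos : 1 ≤ 2 ^ j := Nat.one_le_two_pow
  rcases Nat.mod_two_eq_zero_or_one n with he | ho
  · have h1 := a_le (even_le_three hn he)
    rcases Nat.eq_zero_or_pos j with hj | hj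
    · subst hj
      have h2 : p (0 + 1) ≤ 3 := p_le Nat.prime_three (by norm_num)
      have h3 : n = 2 := by omega
      subst h3
      rw [a_two] at h
      norm_num at h
    · have : 2 ^ 1 ≤ 2 ^ j := Nat.pow_le_pow_right (by norm_num) hj
      omega
  · have hgood : Good n (2 ^ j) := by
      rcases lt_or_ge n (2 ^ (j + 1)) with h1 | h1
      · exact pow_good_of_le ho hn (by omega)
      · have hne : n ≠ 2 ^ (j + 1) := by
          intro h2
          rw [h2, hpow] at ho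
          omega
        have hnp' : ¬ n.Prime := by
          intro h2
          have := p_le h2 (show 2 ^ (j + 1) < n by omega)
          omega
        obtain ⟨d, hd1, hd2, hd3⟩ := Nat.exists_dvd_of_not_prime2 hn hnp'
        have hdodd : d % 2 = 1 := by
          obtain ⟨e, rfl⟩ := hd1
          rcases Nat.mod_two_eq_zero_or_one d with h2 | h2
          · exfalso
            have : (d * e) % 2 = 0 := by rw [Nat.mul_mod, h2]; simp
            omega
          · exact h2
        have hs := sig_ge_of_dvd hd1 (by omega) hd3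
        have hb := p_le_two (j + 1)
        rw [pow_good_iff ho]
        obtain ⟨T, hT⟩ : ∃ T, 2 ^ (j + 1) = T + 1 := ⟨2 ^ (j + 1) - 1, by omega⟩
        rw [hT, Nat.add_sub_cancel]
        have hT1 : 1 ≤ T := by omega
        have hs4 : n + 4 ≤ sig n := by omega
        calc (T + 1) * n = T * n + n := by ring
          _ ≤ T * n + T * 4 := by omega
          _ = T * (n + 4) := by ring
          _ ≤ T * sig n := Nat.mul_le_mul_left _ hs4
    have := a_le hgood
    omega

theorem at_p {m : ℕ} (hm : 1 ≤ m) :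
    a (p m) = 2 ^ m ↔ ¬ ∃ k : ℕ, AlmostPerfect k ∧ p m + 1 ≤ 2 * k ∧ k < 2 ^ m := by
  obtain ⟨hp1, hp2⟩ := p_mem m
  have ho := p_odd hm
  have hb := p_le_two m
  have hpow : 2 ^ (m + 1) = 2 * 2 ^ m := by rw [pow_succ]; ring
  have h2 : 2 ≤ p m := hp1.two_le
  have hgood : Good (p m) (2 ^ m) := by
    apply pow_good_of_le ho h2
    have : p m ≠ 2 * 2 ^ m := by
      intro h
      omega
    omega
  have hle := a_le hgood
  have hkey : ∀ k : ℕ, AlmostPerfect k → k < 2 ^ m → (Good (p m) k ↔ p m + 1 ≤ 2 * k) := by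
    rintro k ⟨hk0, hk1⟩ hk2
    have hcop : Nat.Coprime k (p m) := by
      rw [Nat.coprime_comm, hp1.coprime_iff_not_dvd]
      intro h
      have := Nat.le_of_dvd hk0 h
      omega
    unfold Good
    rw [sig_mul hcop, sig_prime hp1]
    obtain ⟨l, rfl⟩ : ∃ l, k = l + 1 := ⟨k - 1, by omega⟩
    have hs : sig (l + 1) = 2 * l + 1 := by omega
    rw [hs]
    have e1 : 2 * ((l + 1) * p m) = 2 * l * p m + 2 * p m := by ring
    have e2 : (2 * l + 1) * (p m + 1) = 2 * l * p m + p m + 2 * l + 1 := by ring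
    rw [e1, e2]
    constructor
    · rintro ⟨-, -, h⟩
      omega
    · intro h
      exact ⟨by omega, by omega, by omega⟩
  constructor
  · rintro h ⟨k, hk1, hk2, hk3⟩
    have := a_le ((hkey k hk1 hk3).2 hk2)
    omega
  · intro h
    by_contra hne
    have hlt : a (p m) < 2 ^ m := by omega
    have hap := a_odd ho h2
    exact h ⟨a (p m), hap, (hkey _ hap hlt).1 (good_a hgood), hlt⟩

/-- (1) For every `m ≥ 1` no `n` with `2 ≤ n < p_m` has `a(n) = 2^m`.
(2) For every `m ≥ 1`: `a(p_m) = 2^m` if and only if there is no almost perfect number `k` with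
`(p_m + 1)/2 ≤ k < 2^m`.
(3) So for every `m ≥ 1` the least `n ≥ 2` with `a(n) = 2^m` is `p_m` if and only if there is no such
`k`; the statement of Q1 holds if and only if there is no such `k` for any `m ≥ 1`.
(4) In particular it holds if every almost perfect number is a power of two. -/
theorem result :
    (∀ m : ℕ, 1 ≤ m → ∀ n : ℕ, 2 ≤ n → n < p m → a n ≠ 2 ^ m) ∧
    (∀ m : ℕ, 1 ≤ m →
      (a (p m) = 2 ^ m ↔ ¬ ∃ k : ℕ, AlmostPerfect k ∧ p m + 1 ≤ 2 * k ∧ k < 2 ^ m)) ∧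
    (∀ m : ℕ, 1 ≤ m →
      (IsLeast {n : ℕ | 2 ≤ n ∧ a n = 2 ^ m} (p m) ↔
        ¬ ∃ k : ℕ, AlmostPerfect k ∧ p m + 1 ≤ 2 * k ∧ k < 2 ^ m)) ∧
    ((∀ k : ℕ, AlmostPerfect k → ∃ j : ℕ, k = 2 ^ j) →
      ∀ m : ℕ, 1 ≤ m → IsLeast {n : ℕ | 2 ≤ n ∧ a n = 2 ^ m} (p m)) := by
  have h3 : ∀ m : ℕ, 1 ≤ m →
      (IsLeast {n : ℕ | 2 ≤ n ∧ a n = 2 ^ m} (p m) ↔
        ¬ ∃ k : ℕ, AlmostPerfect k ∧ p m + 1 ≤ 2 * k ∧ k < 2 ^ m) := by
    intro m hm
    rw [← at_p hm]
    constructor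
    · intro h; exact h.1.2
    · intro h
      refine ⟨⟨(p_mem m).1.two_le, h⟩, ?_⟩
      rintro n ⟨hn1, hn2⟩
      by_contra hcon
      exact no_smaller hm hn1 (by omega) hn2
  refine ⟨fun m hm n hn hnp => no_smaller hm hn hnp, fun m hm => at_p hm, h3, ?_⟩
  intro h m hm
  rw [h3 m hm]
  rintro ⟨k, hk1, hk2, hk3⟩
  obtain ⟨j, rfl⟩ := h k hk1
  have hj : j < m := (Nat.pow_lt_pow_iff_right (by norm_num)).1 hk3
  have h4 : 2 ^ (j + 1) ≤ 2 ^ m := Nat.pow_le_pow_right (by norm_num) hj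
  have h5 := (p_mem m).2
  rw [pow_succ] at h4
  omega

end Pool.Agent.Results.MP_bcda77_nt.FirstOccurrence
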